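import Mathlib

namespace Pool.Agent.Results.MP_eaaa35_co.Order

open Finset Polynomial

/-- The family `A 1, …, A m` of subsets of an `n`-set is `r`-qualitatively independent. -/
def QI (r : ℕ) {n m : ℕ} (A : Fin m → Finset (Fin n)) : Prop :=
  ∀ i j, i ≠ j → r ≤ (A i ∩ A j).card ∧ r ≤ (A i ∩ (A j)ᶜ).card ∧
    r ≤ ((A i)ᶜ ∩ A j).card ∧ r ≤ ((A i)ᶜ ∩ (A j)ᶜ).card

/-- `M_r(n)`: the largest size of such a family. -/
noncomputable def M (r n : ℕ) : ℕ :=
  sSup {m | ∃ A : Fin m → Finset (Fin n), QI r A}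

lemma bdd {r : ℕ} (hr : 1 ≤ r) (n : ℕ) :
    BddAbove {m | ∃ A : Fin m → Finset (Fin n), QI r A} := by
  refine ⟨Fintype.card (Finset (Fin n)), ?_⟩
  rintro m ⟨A, hA⟩
  have : Function.Injective A := by
    intro i j hij
    by_contra h
    have h2 := (hA i j h).2.1
    rw [hij, Finset.inter_compl] at h2
    simp at h2
    omega
  simpa using Fintype.card_le_of_injective A this

lemma upper {s n m : ℕ} (A : Fin m → Finset (Fin n)) (hA : QI (s + 1) A) :
    m * ((n + 1) / 2).choose s ≤ n.choose (n / 2) := by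
  classical
  obtain ⟨B, hB1, hB2⟩ : ∃ B : Fin m → Finset (Fin n), (∀ i, (n + 1) / 2 ≤ (B i).card) ∧
      ∀ i j, i ≠ j → s + 1 ≤ (B i ∩ (B j)ᶜ).card := by
    refine ⟨fun i => if n ≤ 2 * (A i).card then A i else (A i)ᶜ, fun i => ?_, fun i j hij => ?_⟩
    · by_cases h : n ≤ 2 * (A i).card
      · simp only [if_pos h]; omega
      · simp only [if_neg h, Finset.card_compl, Fintype.card_fin]; omega
    · obtain ⟨h1, h2, h3, h4⟩ := hA i j hij
      by_cases hi : n ≤ 2 * (A i).card <;> by_cases hj : n ≤ 2 * (A j).card <;>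
        simp only [hi, hj, if_true, if_false, compl_compl] <;> assumption
  have key : ∀ i j, ∀ S ∈ Finset.powersetCard ((B i).card - s) (B i), S ⊆ B j → i = j := by
    intro i j S hS hSj
    by_contra hij
    have h1 := hB2 i j hij
    rw [Finset.mem_powersetCard] at hS
    have h2 : B i ∩ (B j)ᶜ ⊆ B i \ S := by
      intro x hx
      rw [Finset.mem_inter, Finset.mem_compl] at hx
      exact Finset.mem_sdiff.2 ⟨hx.1, fun h => hx.2 (hSj h)⟩
    have h3 := Finset.card_le_card h2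
    rw [Finset.card_sdiff_of_subset hS.1, hS.2] at h3
    omega
  have hanti : IsAntichain (· ⊆ ·) ((Finset.univ.biUnion (fun i : Fin m =>
      Finset.powersetCard ((B i).card - s) (B i)) : Finset (Finset (Fin n))) :
        Set (Finset (Fin n))) := by
    intro S hS T hT hST hsub
    simp only [Finset.coe_biUnion, Finset.coe_univ, Set.mem_univ, Set.iUnion_true,
      Set.mem_iUnion, Finset.mem_coe] at hS hT
    obtain ⟨i, hi⟩ := hS
    obtain ⟨j, hj⟩ := hT
    have hij := key i j S hi (hsub.trans (Finset.mem_powersetCard.1 hj).1)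
    subst hij
    exact hST (Finset.eq_of_subset_of_card_le hsub (by
      rw [(Finset.mem_powersetCard.1 hi).2, (Finset.mem_powersetCard.1 hj).2]))
  have hsp := hanti.sperner
  rw [Fintype.card_fin, Finset.card_biUnion] at hsp
  · refine le_trans ?_ hsp
    have : ∀ i ∈ (Finset.univ : Finset (Fin m)), ((n + 1) / 2).choose s ≤
        (Finset.powersetCard ((B i).card - s) (B i)).card := by
      intro i _
      rw [Finset.card_powersetCard]
      by_cases h : s ≤ (B i).card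
      · rw [Nat.choose_symm h]
        exact Nat.choose_le_choose _ (hB1 i)
      · rw [Nat.choose_eq_zero_of_lt (by have := hB1 i; omega)]
        exact Nat.zero_le _
    have h2 := Finset.card_nsmul_le_sum _ _ _ this
    simpa using h2
  · intro i _ j _ hij
    rw [Function.onFun, Finset.disjoint_left]
    intro S h1 h2
    exact hij (key i j S h1 (Finset.mem_powersetCard.1 h2).1)

lemma sep {F α : Type} [Field F] [DecidableEq α] (e : α → F) (he : Function.Injective e)
    (h0 : ∀ a, e a ≠ 0) (s : ℕ) (S T : Finset α) (hc : S.card = T.card) (hne : S ≠ T)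
    (h : ∀ j < s, (∏ a ∈ S, (X - C (e a))).coeff j = (∏ a ∈ T, (X - C (e a))).coeff j) :
    s + 1 ≤ (S \ T).card := by
  by_contra hlt
  have hd : (X : F[X]) ^ s ∣ ∏ a ∈ S, (X - C (e a)) - ∏ a ∈ T, (X - C (e a)) := by
    rw [Polynomial.X_pow_dvd_iff]
    intro j hj
    rw [Polynomial.coeff_sub, h j hj, sub_self]
  have e1 : ∏ a ∈ S, (X - C (e a)) = (∏ a ∈ S \ T, (X - C (e a))) * ∏ a ∈ S ∩ T, (X - C (e a)) := by
    rw [← Finset.prod_union (Finset.disjoint_sdiff_inter S T), Finset.sdiff_union_inter]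
  have e2 : ∏ a ∈ T, (X - C (e a)) = (∏ a ∈ T \ S, (X - C (e a))) * ∏ a ∈ S ∩ T, (X - C (e a)) := by
    rw [Finset.inter_comm, ← Finset.prod_union (Finset.disjoint_sdiff_inter T S),
      Finset.sdiff_union_inter]
  rw [e1, e2, ← sub_mul] at hd
  have hco : IsCoprime ((X : F[X]) ^ s) (∏ a ∈ S ∩ T, (X - C (e a))) := by
    refine IsCoprime.pow_left (IsCoprime.prod_right (fun a _ => ?_))
    have := Polynomial.isCoprime_X_sub_C_of_isUnit_sub (a := (0 : F)) (b := e a)
      (by simpa using h0 a)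
    simpa using this
  have hd2 := hco.dvd_of_dvd_mul_right hd
  have m1 : (∏ a ∈ S \ T, (X - C (e a)) : F[X]).Monic :=
    Polynomial.monic_prod_of_monic _ _ (fun a _ => Polynomial.monic_X_sub_C _)
  have m2 : (∏ a ∈ T \ S, (X - C (e a)) : F[X]).Monic :=
    Polynomial.monic_prod_of_monic _ _ (fun a _ => Polynomial.monic_X_sub_C _)
  have d1 : (∏ a ∈ S \ T, (X - C (e a)) : F[X]).degree = ((S \ T).card : ℕ) := by
    rw [Polynomial.degree_eq_natDegree m1.ne_zero, Polynomial.natDegree_finsetProd_X_sub_C_eq_card]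
  have d2 : (∏ a ∈ T \ S, (X - C (e a)) : F[X]).degree = ((T \ S).card : ℕ) := by
    rw [Polynomial.degree_eq_natDegree m2.ne_zero, Polynomial.natDegree_finsetProd_X_sub_C_eq_card]
  have hcc : (S \ T).card = (T \ S).card := Finset.card_sdiff_comm hc
  have hlt2 := Polynomial.degree_sub_lt_left (p := ∏ a ∈ S \ T, (X - C (e a)))
    (q := ∏ a ∈ T \ S, (X - C (e a))) (by rw [d1, d2, hcc]) m1.ne_zero
    (by rw [m1.leadingCoeff, m2.leadingCoeff])
  have hz := Polynomial.eq_zero_of_dvd_of_degree_lt hd2 (by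
    refine lt_of_lt_of_le hlt2 ?_
    rw [d1, Polynomial.degree_X_pow]
    exact_mod_cast (by omega : (S \ T).card ≤ s))
  have hnon : (S \ T).Nonempty := by
    rw [Finset.sdiff_nonempty]
    intro hsub
    exact hne (Finset.eq_of_subset_of_card_le hsub hc.ge)
  obtain ⟨a, ha⟩ := hnon
  have h3 := congrArg (Polynomial.eval (e a)) (sub_eq_zero.1 hz)
  rw [Polynomial.eval_prod, Polynomial.eval_prod,
    Finset.prod_eq_zero ha (by simp), eq_comm, Finset.prod_eq_zero_iff] at h3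
  obtain ⟨b, hb, hab⟩ := h3
  simp only [Polynomial.eval_sub, Polynomial.eval_X, Polynomial.eval_C] at hab
  have := he (sub_eq_zero.1 hab)
  subst this
  exact (Finset.mem_sdiff.1 hb).2 (Finset.mem_sdiff.1 ha).1

lemma lower {s n : ℕ} (hn : 2 * (s + 1) ≤ n) :
    (n - 2 * (s + 1)).choose ((n - 2 * (s + 1)) / 2) ≤ (2 * n) ^ s * M (s + 1) n := by
  classical
  obtain ⟨p, hp, hp1, hp2⟩ := Nat.exists_prime_lt_and_le_two_mul n (by omega)
  have : Fact p.Prime := ⟨hp⟩
  obtain ⟨e, he, h0⟩ : ∃ e : Fin n → ZMod p, Function.Injective e ∧ ∀ a, e a ≠ 0 := by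
    refine ⟨fun a => ((a.val + 1 : ℕ) : ZMod p), fun a b hab => ?_, fun a ha => ?_⟩
    · have := (ZMod.natCast_eq_natCast_iff' _ _ _).1 hab
      rw [Nat.mod_eq_of_lt (by omega), Nat.mod_eq_of_lt (by omega)] at this
      exact Fin.ext (by omega)
    · have := Nat.le_of_dvd (by omega) ((ZMod.natCast_eq_zero_iff _ _).1 ha)
      omega
  obtain ⟨R1, -, hR1⟩ := Finset.exists_subset_card_eq (s := (Finset.univ : Finset (Fin n)))
    (n := s + 1) (by simp; omega)
  obtain ⟨R2, hR21, hR2⟩ := Finset.exists_subset_card_eq (s := R1ᶜ) (n := s + 1)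
    (by rw [Finset.card_compl, Fintype.card_fin, hR1]; omega)
  have hdis : Disjoint R1 R2 := by
    rw [Finset.disjoint_left]
    intro a h1 h2
    exact Finset.mem_compl.1 (hR21 h2) h1
  have hW : ((R1 ∪ R2)ᶜ).card = n - 2 * (s + 1) := by
    rw [Finset.card_compl, Fintype.card_fin, Finset.card_union_of_disjoint hdis, hR1, hR2]
    omega
  obtain ⟨φ, hφ⟩ : ∃ φ : Finset (Fin n) → (Fin s → ZMod p),
      ∀ S j, φ S j = (∏ a ∈ S, (X - C (e a))).coeff j := ⟨fun S j => _, fun _ _ => rfl⟩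
  have hfib : ∀ y : Fin s → ZMod p,
      ((Finset.powersetCard ((n - 2 * (s + 1)) / 2) (R1 ∪ R2)ᶜ).filter (fun S => φ S = y)).card
        ≤ M (s + 1) n := by
    intro y
    obtain ⟨G, hG⟩ : ∃ G, G = (Finset.powersetCard ((n - 2 * (s + 1)) / 2) (R1 ∪ R2)ᶜ).filter
      (fun S => φ S = y) := ⟨_, rfl⟩
    rw [← hG]
    have hmem : ∀ S ∈ G, S ⊆ (R1 ∪ R2)ᶜ ∧ S.card = (n - 2 * (s + 1)) / 2 ∧ φ S = y := by
      intro S hS
      rw [hG, Finset.mem_filter, Finset.mem_powersetCard] at hS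
      exact ⟨hS.1.1, hS.1.2, hS.2⟩
    have hsep : ∀ S ∈ G, ∀ T ∈ G, S ≠ T → s + 1 ≤ ((S ∪ R1) ∩ (T ∪ R1)ᶜ).card := by
      intro S hS T hT hST
      obtain ⟨a1, a2, a3⟩ := hmem S hS
      obtain ⟨b1, b2, b3⟩ := hmem T hT
      refine le_trans (sep e he h0 s S T (by rw [a2, b2]) hST (fun j hj => ?_))
        (Finset.card_le_card ?_)
      · have := congrFun (a3.trans b3.symm) ⟨j, hj⟩
        rw [hφ, hφ] at this
        exact this
      · intro x hx
        rw [Finset.mem_sdiff] at hx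
        have := a1 hx.1
        simp only [Finset.mem_compl, Finset.mem_union, Finset.mem_inter] at this ⊢
        tauto
    refine le_csSup (bdd (by omega) n) ⟨fun i => (G.equivFin.symm i).1 ∪ R1, fun i j hij => ?_⟩
    have hne : (G.equivFin.symm i).1 ≠ (G.equivFin.symm j).1 :=
      fun h => hij (G.equivFin.symm.injective (Subtype.ext h))
    have hi := (G.equivFin.symm i).2
    have hj := (G.equivFin.symm j).2
    refine ⟨?_, hsep _ hi _ hj hne, ?_, ?_⟩
    · rw [← hR1]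
      exact Finset.card_le_card
        (Finset.subset_inter Finset.subset_union_right Finset.subset_union_right)
    · rw [Finset.inter_comm]
      exact hsep _ hj _ hi hne.symm
    · rw [← hR2]
      refine Finset.card_le_card (fun x hx => ?_)
      have h1 := Finset.mem_compl.1 (hR21 hx)
      have h2 : x ∉ (G.equivFin.symm i).1 := fun h =>
        Finset.mem_compl.1 ((hmem _ hi).1 h) (Finset.mem_union_right _ hx)
      have h3 : x ∉ (G.equivFin.symm j).1 := fun h =>
        Finset.mem_compl.1 ((hmem _ hj).1 h) (Finset.mem_union_right _ hx)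
      simp only [Finset.mem_compl, Finset.mem_union, Finset.mem_inter]
      tauto
  have hsum := Finset.card_eq_sum_card_fiberwise
    (s := Finset.powersetCard ((n - 2 * (s + 1)) / 2) (R1 ∪ R2)ᶜ)
    (t := (Finset.univ : Finset (Fin s → ZMod p))) (f := φ) (fun _ _ => Finset.mem_univ _)
  rw [Finset.card_powersetCard, hW] at hsum
  rw [hsum]
  refine le_trans (Finset.sum_le_card_nsmul _ _ _ (fun y _ => hfib y)) ?_
  simp only [Finset.card_univ, Fintype.card_fun, ZMod.card, Fintype.card_fin, smul_eq_mul]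
  exact Nat.mul_le_mul_right _ (Nat.pow_le_pow_left hp2 _)

lemma mid_step (N : ℕ) : (N + 1).choose ((N + 1) / 2) ≤ 2 * N.choose (N / 2) := by
  rcases h : (N + 1) / 2 with _ | k
  · have := Nat.choose_pos (Nat.div_le_self N 2)
    simp only [Nat.choose_zero_right]
    omega
  · rw [Nat.choose_succ_succ']
    have h1 := Nat.choose_le_middle k N
    have h2 := Nat.choose_le_middle (k + 1) N
    omega

lemma mid_iter (N k : ℕ) : (N + k).choose ((N + k) / 2) ≤ 2 ^ k * N.choose (N / 2) := by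
  induction k with
  | zero => simp
  | succ k ih =>
    have := mid_step (N + k)
    rw [← add_assoc, pow_succ]
    nlinarith

lemma all_parts (r : ℕ) (hr2 : 2 ≤ r) :
    (∀ n : ℕ, BddAbove {m | ∃ A : Fin m → Finset (Fin n), QI r A}) ∧
    (∀ n : ℕ, M r n * ((n + 1) / 2).choose (r - 1) ≤ n.choose (n / 2)) ∧
    (∀ n : ℕ, 2 * r ≤ n →
      (n - 2 * r).choose ((n - 2 * r) / 2) ≤ (2 * n) ^ (r - 1) * M r n) ∧
    ∃ c C : ℝ, 0 < c ∧ 0 < C ∧ ∀ n : ℕ, 2 * r ≤ n →
      c * ((n.choose (n / 2) : ℝ) / (n : ℝ) ^ (r - 1)) ≤ (M r n : ℝ) ∧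
      (M r n : ℝ) ≤ C * ((n.choose (n / 2) : ℝ) / (n : ℝ) ^ (r - 1)) := by
  have hr : 1 ≤ r := by omega
  obtain ⟨s, rfl⟩ : ∃ s, r = s + 1 := ⟨r - 1, by omega⟩
  simp only [Nat.add_sub_cancel]
  have hup : ∀ n : ℕ, M (s + 1) n * ((n + 1) / 2).choose s ≤ n.choose (n / 2) := by
    intro n
    have hne : {m | ∃ A : Fin m → Finset (Fin n), QI (s + 1) A}.Nonempty :=
      ⟨0, Fin.elim0, fun i => i.elim0⟩
    obtain ⟨A, hA⟩ : ∃ A : Fin (M (s + 1) n) → Finset (Fin n), QI (s + 1) A :=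
      Nat.sSup_mem hne (bdd hr n)
    exact upper A hA
  refine ⟨bdd hr, hup, fun n hn => lower hn, 1 / (2 ^ (2 * (s + 1)) * 2 ^ s),
    ((s + 1) ^ s * s.factorial : ℕ), by positivity, by positivity, fun n hn => ⟨?_, ?_⟩⟩
  · have h1 := lower hn
    have h2 := mid_iter (n - 2 * (s + 1)) (2 * (s + 1))
    rw [Nat.sub_add_cancel hn] at h2
    have h3 : n.choose (n / 2) ≤ (2 ^ (2 * (s + 1)) * 2 ^ s) * (n ^ s * M (s + 1) n) := by
      calc _ ≤ _ := h2
        _ ≤ 2 ^ (2 * (s + 1)) * ((2 * n) ^ s * M (s + 1) n) := Nat.mul_le_mul_left _ h1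
        _ = _ := by rw [mul_pow]; ring
    have h4 : (n.choose (n / 2) : ℝ) ≤
        (2 ^ (2 * (s + 1)) * 2 ^ s) * ((n : ℝ) ^ s * (M (s + 1) n : ℝ)) := by exact_mod_cast h3
    have hn0 : (0 : ℝ) < n := by exact_mod_cast (by omega : 0 < n)
    rw [one_div, inv_mul_le_iff₀ (by positivity), div_le_iff₀ (by positivity)]
    calc _ ≤ _ := h4
      _ = _ := by ring
  · have h1 := hup n
    have h2 : ((n + 1) / 2 + 1 - s) ^ s ≤ s.factorial * ((n + 1) / 2).choose s := by
      rw [← Nat.descFactorial_eq_factorial_mul_choose]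
      exact Nat.pow_sub_le_descFactorial _ _
    have h3 : n ≤ (s + 1) * ((n + 1) / 2 + 1 - s) := by
      obtain ⟨d, hd⟩ : ∃ d, (n + 1) / 2 + 1 - s = d + 2 := ⟨(n + 1) / 2 + 1 - s - 2, by omega⟩
      rw [hd]
      rcases Nat.eq_zero_or_pos s with h | h
      · omega
      · have : d ≤ s * d := Nat.le_mul_of_pos_left _ h
        have e : (s + 1) * (d + 2) = s * d + d + 2 * s + 2 := by ring
        omega
    have h4 : M (s + 1) n * n ^ s ≤ ((s + 1) ^ s * s.factorial) * n.choose (n / 2) := by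
      calc M (s + 1) n * n ^ s ≤ M (s + 1) n * ((s + 1) * ((n + 1) / 2 + 1 - s)) ^ s :=
            Nat.mul_le_mul_left _ (Nat.pow_le_pow_left h3 _)
        _ = (s + 1) ^ s * (M (s + 1) n * ((n + 1) / 2 + 1 - s) ^ s) := by rw [mul_pow]; ring
        _ ≤ (s + 1) ^ s * (M (s + 1) n * (s.factorial * ((n + 1) / 2).choose s)) :=
            Nat.mul_le_mul_left _ (Nat.mul_le_mul_left _ h2)
        _ = ((s + 1) ^ s * s.factorial) * (M (s + 1) n * ((n + 1) / 2).choose s) := by ring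
        _ ≤ _ := Nat.mul_le_mul_left _ h1
    have hn0 : (0 : ℝ) < n := by exact_mod_cast (by omega : 0 < n)
    rw [← mul_div_assoc, le_div_iff₀ (by positivity)]
    exact_mod_cast h4

theorem result (r : ℕ) (hr : 2 ≤ r) :
    ∃ c C : ℝ, 0 < c ∧ 0 < C ∧ ∀ n : ℕ, 2 * r ≤ n →
      c * ((n.choose (n / 2) : ℝ) / (n : ℝ) ^ (r - 1)) ≤ (M r n : ℝ) ∧
      (M r n : ℝ) ≤ C * ((n.choose (n / 2) : ℝ) / (n : ℝ) ^ (r - 1)) :=
  (all_parts r hr).2.2.2

end Pool.Agent.Results.MP_eaaa35_co.Order
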